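import Pool.Agent.Helper14.W5.StD

/-!
# Project W5, module Tri: triangular system of symbols modulo 5
-/

set_option autoImplicit false

namespace Pool.Agent.Helper33.W5

open Pool.Agent.Helper14.W5
open Pool.Agent.Helper14.CV (Homog EqC act Tl)
open Pool.Agent.Helper28.WK (SymP Tw evw Ok)

section comm

variable {E : Type} [Ring E] [Algebra (ZMod 5) E]

private theorem reorder_Tri (D Y : E) (h : D * Y = Y * D) (c i j : ℕ) :
    ((4 : ZMod 5) • (D * Y * (D ^ 2 + D * Y + Y ^ 2))) ^ c * ((2 : ZMod 5) • (D * Y)) ^ i *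
      ((3 : ZMod 5) • (D * Y * (D ^ 2 + Y ^ 2) ^ 2)) ^ j =
    ((4 : ZMod 5) ^ c * 2 ^ i * 3 ^ j) •
      (D ^ (i + j + c) * ((D ^ 2 + D * Y + Y ^ 2) ^ c * (D ^ 2 + Y ^ 2) ^ (2 * j)) *
        Y ^ (i + j + c)) := by
  have hDY : Commute D Y := h
  have hDA : Commute D (D ^ 2 + D * Y + Y ^ 2) :=
    (((Commute.refl D).pow_right 2).add_right ((Commute.refl D).mul_right hDY)).add_right
      (hDY.pow_right 2)
  have hYA : Commute Y (D ^ 2 + D * Y + Y ^ 2) :=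
    ((hDY.symm.pow_right 2).add_right (hDY.symm.mul_right (Commute.refl Y))).add_right
      ((Commute.refl Y).pow_right 2)
  have hDC : Commute D (D ^ 2 + Y ^ 2) :=
    ((Commute.refl D).pow_right 2).add_right (hDY.pow_right 2)
  have hYC : Commute Y (D ^ 2 + Y ^ 2) :=
    (hDY.symm.pow_right 2).add_right ((Commute.refl Y).pow_right 2)
  have hPA : Commute (D * Y) (D ^ 2 + D * Y + Y ^ 2) := hDA.mul_left hYA
  have hPC : Commute (D * Y) (D ^ 2 + Y ^ 2) := hDC.mul_left hYC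
  generalize D ^ 2 + D * Y + Y ^ 2 = A at hDA hYA hPA ⊢
  generalize D ^ 2 + Y ^ 2 = C at hDC hYC hPC ⊢
  rw [smul_pow, smul_pow, smul_pow, smul_mul_smul_comm, smul_mul_smul_comm, hPA.mul_pow,
    (hPC.pow_right 2).mul_pow, ← pow_mul]
  congr 1
  have h1 : A ^ c * (D * Y) ^ (i + j) = (D * Y) ^ (i + j) * A ^ c := (hPA.symm.pow_pow _ _).eq
  have h2 : Y ^ (i + j + c) * (A ^ c * C ^ (2 * j)) = A ^ c * C ^ (2 * j) * Y ^ (i + j + c) :=
    ((hYA.pow_pow _ _).mul_right (hYC.pow_pow _ _)).eq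
  calc (D * Y) ^ c * A ^ c * (D * Y) ^ i * ((D * Y) ^ j * C ^ (2 * j))
      = (D * Y) ^ c * (A ^ c * (D * Y) ^ (i + j)) * C ^ (2 * j) := by
        rw [pow_add]
        simp only [mul_assoc]
    _ = ((D * Y) ^ (i + j) * (D * Y) ^ c) * A ^ c * C ^ (2 * j) := by
        rw [h1, ← mul_assoc, ← pow_add, ← pow_add, add_comm c]
    _ = D ^ (i + j + c) * (Y ^ (i + j + c) * (A ^ c * C ^ (2 * j))) := by
        rw [← pow_add, hDY.mul_pow]
        simp only [mul_assoc]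
    _ = D ^ (i + j + c) * (A ^ c * C ^ (2 * j)) * Y ^ (i + j + c) := by
        rw [h2]
        simp only [mul_assoc]

end comm

section main

variable {r s : ℕ}

private theorem dy_pow_Tri (hBb : S5Bb) (p q m : ℕ) (hp : p < 5 ^ r) (hq : m + q < 5 ^ s) :
    (dY ^ m : Module.End (ZMod 5) (Fn5 (5 ^ r) (5 ^ s))) (bb5 p (m + q)) = bb5 p q := by
  induction m with
  | zero =>
    rw [pow_zero, zero_add]
    rfl
  | succ m ih =>
    have h1 : m + 1 + q = (m + q) + 1 := by ring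
    rw [pow_succ, Module.End.mul_apply, h1,
      (hBb r s).2.2.1 p (m + q) hp (by omega)]
    exact ih (by omega)

private theorem dx_pow_Tri (hBb : S5Bb) (p q m : ℕ) (hq : q < 5 ^ s) (hp : m + p < 5 ^ r) :
    (dX ^ m : Module.End (ZMod 5) (Fn5 (5 ^ r) (5 ^ s))) (bb5 (m + p) q) = bb5 p q := by
  induction m with
  | zero =>
    rw [pow_zero, zero_add]
    rfl
  | succ m ih =>
    have h1 : m + 1 + p = (m + p) + 1 := by ring
    rw [pow_succ, Module.End.mul_apply, h1,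
      (hBb r s).2.1 (m + p) q (by omega) hq]
    exact ih (by omega)

private theorem dy_kill_Tri (hBb : S5Bb) (p q m : ℕ) (hp : p < 5 ^ r) (hq : q < 5 ^ s)
    (h : q < m) :
    (dY ^ m : Module.End (ZMod 5) (Fn5 (5 ^ r) (5 ^ s))) (bb5 p q) = 0 := by
  obtain ⟨c, rfl⟩ : ∃ c, m = c + (1 + q) := ⟨m - (1 + q), by omega⟩
  rw [pow_add, pow_add, Module.End.mul_apply, Module.End.mul_apply]
  have h1 := dy_pow_Tri (r := r) (s := s) hBb p 0 q hp (by omega)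
  rw [add_zero] at h1
  rw [h1, pow_one, (hBb r s).2.2.2.2.1 p hp, map_zero]

/-- One step of the factor `dX² + dY²`. -/
private theorem c_step_Tri (hBb : S5Bb) (p : ℕ) (hp : 2 + p < 5 ^ r) (hs : 0 < 5 ^ s) :
    (dX ^ 2 + dY ^ 2 : Module.End (ZMod 5) (Fn5 (5 ^ r) (5 ^ s))) (bb5 (2 + p) 0) =
      bb5 p 0 := by
  rw [LinearMap.add_apply, dx_pow_Tri hBb p 0 2 hs hp,
    dy_kill_Tri hBb (2 + p) 0 2 hp hs (by omega), add_zero]

/-- One step of the factor `dX² + dX dY + dY²`. -/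
private theorem a_step_Tri (hBb : S5Bb) (p : ℕ) (hp : 2 + p < 5 ^ r) (hs : 0 < 5 ^ s) :
    (dX ^ 2 + dX * dY + dY ^ 2 : Module.End (ZMod 5) (Fn5 (5 ^ r) (5 ^ s)))
      (bb5 (2 + p) 0) = bb5 p 0 := by
  rw [LinearMap.add_apply, LinearMap.add_apply, dx_pow_Tri hBb p 0 2 hs hp,
    dy_kill_Tri hBb (2 + p) 0 2 hp hs (by omega), add_zero, Module.End.mul_apply,
    (hBb r s).2.2.2.2.1 (2 + p) hp, map_zero, add_zero]

private theorem c_pow_Tri (hBb : S5Bb) (p m : ℕ) (hp : 2 * m + p < 5 ^ r) (hs : 0 < 5 ^ s) :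
    ((dX ^ 2 + dY ^ 2) ^ m : Module.End (ZMod 5) (Fn5 (5 ^ r) (5 ^ s)))
      (bb5 (2 * m + p) 0) = bb5 p 0 := by
  induction m with
  | zero =>
    rw [pow_zero, mul_zero, zero_add]
    rfl
  | succ m ih =>
    have h1 : 2 * (m + 1) + p = 2 + (2 * m + p) := by ring
    rw [pow_succ, Module.End.mul_apply, h1, c_step_Tri hBb (2 * m + p) (by omega) hs]
    exact ih (by omega)

private theorem a_pow_Tri (hBb : S5Bb) (p m : ℕ) (hp : 2 * m + p < 5 ^ r) (hs : 0 < 5 ^ s) :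
    ((dX ^ 2 + dX * dY + dY ^ 2) ^ m : Module.End (ZMod 5) (Fn5 (5 ^ r) (5 ^ s)))
      (bb5 (2 * m + p) 0) = bb5 p 0 := by
  induction m with
  | zero =>
    rw [pow_zero, mul_zero, zero_add]
    rfl
  | succ m ih =>
    have h1 : 2 * (m + 1) + p = 2 + (2 * m + p) := by ring
    rw [pow_succ, Module.End.mul_apply, h1, a_step_Tri hBb (2 * m + p) (by omega) hs]
    exact ih (by omega)

private theorem low_pow_Tri (hLow0 : S5Low0) (O : Module.End (ZMod 5) (Fn5 (5 ^ r) (5 ^ s)))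
    (k : ℤ) (h : Lw O k) (i : ℕ) : Lw (O ^ i) ((i : ℤ) * k) := by
  induction i with
  | zero =>
    rw [pow_zero, Nat.cast_zero, zero_mul]
    exact (hLow0 r s).2.2.2.2.2.1
  | succ i ih =>
    have h1 : ((i + 1 : ℕ) : ℤ) * k = (i : ℤ) * k + k := by
      push_cast
      ring
    rw [pow_succ, h1]
    exact (hLow0 r s).1 _ _ _ _ ih h

private theorem low_P_Tri (hLow0 : S5Low0) :
    Lw (dX * dY : Module.End (ZMod 5) (Fn5 (5 ^ r) (5 ^ s))) 2 :=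
  (hLow0 r s).1 _ _ _ _ (hLow0 r s).2.2.2.2.2.2.1 (hLow0 r s).2.2.2.2.2.2.2.1

private theorem low_X2_Tri (hLow0 : S5Low0) :
    Lw (dX ^ 2 : Module.End (ZMod 5) (Fn5 (5 ^ r) (5 ^ s))) 2 := by
  have h := low_pow_Tri hLow0 _ _ (hLow0 r s).2.2.2.2.2.2.1 2
  norm_num at h
  exact h

private theorem low_Y2_Tri (hLow0 : S5Low0) :
    Lw (dY ^ 2 : Module.End (ZMod 5) (Fn5 (5 ^ r) (5 ^ s))) 2 := by
  have h := low_pow_Tri hLow0 _ _ (hLow0 r s).2.2.2.2.2.2.2.1 2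
  norm_num at h
  exact h

private theorem low_Qo_Tri (hLow0 : S5Low0) :
    Lw (Qo : Module.End (ZMod 5) (Fn5 (5 ^ r) (5 ^ s))) 2 :=
  (hLow0 r s).2.2.1 _ _ _ (low_P_Tri hLow0)

private theorem low_Lo_Tri (hLow0 : S5Low0) :
    Lw (Lo : Module.End (ZMod 5) (Fn5 (5 ^ r) (5 ^ s))) 6 := by
  have h1 : Lw (dX ^ 2 + dY ^ 2 : Module.End (ZMod 5) (Fn5 (5 ^ r) (5 ^ s))) 2 :=
    (hLow0 r s).2.1 _ _ _ (low_X2_Tri hLow0) (low_Y2_Tri hLow0)
  have h2 := (hLow0 r s).1 _ _ _ _ (low_P_Tri hLow0) (low_pow_Tri hLow0 _ _ h1 2)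
  have h3 : (2 : ℤ) + ((2 : ℕ) : ℤ) * 2 = 6 := by norm_num
  rw [h3] at h2
  exact (hLow0 r s).2.2.1 _ _ _ h2

private theorem low_Mo_Tri (hLow0 : S5Low0) :
    Lw (Mo : Module.End (ZMod 5) (Fn5 (5 ^ r) (5 ^ s))) 4 := by
  have h1 : Lw (dX ^ 2 + dX * dY + dY ^ 2 : Module.End (ZMod 5) (Fn5 (5 ^ r) (5 ^ s))) 2 :=
    (hLow0 r s).2.1 _ _ _ ((hLow0 r s).2.1 _ _ _ (low_X2_Tri hLow0) (low_P_Tri hLow0))
      (low_Y2_Tri hLow0)
  have h2 := (hLow0 r s).1 _ _ _ _ (low_P_Tri hLow0) h1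
  have h3 : (2 : ℤ) + 2 = 4 := by norm_num
  rw [h3] at h2
  exact (hLow0 r s).2.2.1 _ _ _ h2

private theorem low_all_Tri (hLow0 : S5Low0) (c i j : ℕ) :
    Lw (Mo ^ c * Qo ^ i * Lo ^ j : Module.End (ZMod 5) (Fn5 (5 ^ r) (5 ^ s)))
      ((c : ℤ) * 4 + (i : ℤ) * 2 + (j : ℤ) * 6) :=
  (hLow0 r s).1 _ _ _ _ ((hLow0 r s).1 _ _ _ _ (low_pow_Tri hLow0 _ _ (low_Mo_Tri hLow0) c)
    (low_pow_Tri hLow0 _ _ (low_Qo_Tri hLow0) i)) (low_pow_Tri hLow0 _ _ (low_Lo_Tri hLow0) j)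

private theorem form_Tri (hLow0 : S5Low0) (c i j : ℕ) :
    (Mo ^ c * Qo ^ i * Lo ^ j : Module.End (ZMod 5) (Fn5 (5 ^ r) (5 ^ s))) =
      ((4 : ZMod 5) ^ c * 2 ^ i * 3 ^ j) •
      (dX ^ (i + j + c) * ((dX ^ 2 + dX * dY + dY ^ 2) ^ c * (dX ^ 2 + dY ^ 2) ^ (2 * j)) *
        dY ^ (i + j + c)) :=
  reorder_Tri _ _ (hLow0 r s).2.2.2.2.2.2.2.2.1 c i j

private theorem kill_Tri (hLow0 : S5Low0) (hBb : S5Bb) (c i j al be : ℕ) (hal : al < 5 ^ r)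
    (hbe : be < 5 ^ s) (h : be < i + j + c) :
    (Mo ^ c * Qo ^ i * Lo ^ j : Module.End (ZMod 5) (Fn5 (5 ^ r) (5 ^ s))) (bb5 al be) = 0 := by
  rw [form_Tri hLow0, LinearMap.smul_apply, Module.End.mul_apply,
    dy_kill_Tri hBb al be (i + j + c) hal hbe h, map_zero, smul_zero]

private theorem val_Tri (hLow0 : S5Low0) (hBb : S5Bb) (c i j : ℕ)
    (hal : i + 5 * j + 3 * c < 5 ^ r) (hbe : i + j + c < 5 ^ s) :
    ((Mo ^ c * Qo ^ i * Lo ^ j : Module.End (ZMod 5) (Fn5 (5 ^ r) (5 ^ s)))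
      (bb5 (i + 5 * j + 3 * c) (i + j + c))) 0 0 ≠ 0 := by
  have hs0 : 0 < 5 ^ s := by positivity
  have h1 := dy_pow_Tri (r := r) (s := s) hBb (i + 5 * j + 3 * c) 0 (i + j + c) hal (by omega)
  rw [add_zero] at h1
  have h2 := c_pow_Tri (r := r) (s := s) hBb (2 * c + (i + j + c)) (2 * j) (by omega) hs0
  have h2' : 2 * (2 * j) + (2 * c + (i + j + c)) = i + 5 * j + 3 * c := by ring
  rw [h2'] at h2
  have h3 := a_pow_Tri (r := r) (s := s) hBb (i + j + c) c (by omega) hs0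
  have h4 := dx_pow_Tri (r := r) (s := s) hBb 0 0 (i + j + c) hs0 (by omega)
  rw [add_zero] at h4
  have h5 : ((bb5 0 0 : Fn5 (5 ^ r) (5 ^ s)) 0 0) = 1 := by simp [bb5]
  have h6 : (Mo ^ c * Qo ^ i * Lo ^ j : Module.End (ZMod 5) (Fn5 (5 ^ r) (5 ^ s)))
      (bb5 (i + 5 * j + 3 * c) (i + j + c)) =
      ((4 : ZMod 5) ^ c * 2 ^ i * 3 ^ j) • (bb5 0 0 : Fn5 (5 ^ r) (5 ^ s)) := by
    rw [form_Tri hLow0, LinearMap.smul_apply, Module.End.mul_apply, Module.End.mul_apply,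
      Module.End.mul_apply, h1, h2, h3, h4]
  have h7 : (4 : ZMod 5) ≠ 0 := by decide
  have h8 : (2 : ZMod 5) ≠ 0 := by decide
  have h9 : (3 : ZMod 5) ≠ 0 := by decide
  have hp5 : Fact (Nat.Prime 5) := ⟨by norm_num⟩
  rw [h6, Pi.smul_apply, Pi.smul_apply, h5, smul_eq_mul, mul_one]
  exact mul_ne_zero (mul_ne_zero (pow_ne_zero _ h7) (pow_ne_zero _ h8)) (pow_ne_zero _ h9)

/-- The value at the origin only depends on the leading form. -/
private theorem lead_Tri (hLow0 : S5Low0) (O : Module.End (ZMod 5) (Fn5 (5 ^ r) (5 ^ s)))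
    (k : ℤ) (hO : Lw O k) (F L : Fn5 (5 ^ r) (5 ^ s)) (h : F - L ∈ Wd5 (k - 1)) :
    O F = O L := by
  have h1 := hO _ _ h
  have h2 : k - 1 - k = -1 := by ring
  rw [h2] at h1
  have h3 := (hLow0 r s).2.2.2.2.2.2.2.2.2.2.2.2.2 _ h1
  rw [map_sub] at h3
  exact sub_eq_zero.1 h3

end main

/-- TRI. -/
theorem hTri (hl : S5Low0) (hb : S5Bb) (hd : S5Led) (he : S5Ex) (hi : S5Itr) : S5Tri := by
  intro r s c i j hc hr hs
  have hev : Even ((i + 5 * j + 3 * c) + (i + j + c)) := ⟨i + 3 * j + 2 * c, by ring⟩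
  obtain ⟨F, hRel, hF0, hF1⟩ := hd r s (i + 5 * j + 3 * c) (i + j + c) hr hs hev
  obtain ⟨G, hG, hGF⟩ := he (ZMod 5) inferInstance r s F hRel
  have hdd : ((i + 5 * j + 3 * c : ℕ) : ℤ) + ((i + j + c : ℕ) : ℤ) =
      ((2 * i + 6 * j + 4 * c : ℕ) : ℤ) := by
    push_cast
    ring
  rw [hdd] at hF0 hF1
  have hbb := (hb r s).1 _ _ hr hs
  rw [hdd] at hbb
  have hF0' : F 0 ∈ Wd5 ((2 * i + 6 * j + 4 * c : ℕ) : ℤ) := by
    have h1 : F 0 = (F 0 - bb5 (i + 5 * j + 3 * c) (i + j + c)) +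
        bb5 (i + 5 * j + 3 * c) (i + j + c) := by
      rw [sub_add_cancel]
    rw [h1]
    exact Submodule.add_mem _ ((hl r s).2.2.2.2.1 _ _ (by omega) hF0) hbb
  have hI := hi r s G (2 * i + 6 * j + 4 * c) hG ⟨i + 3 * j + 2 * c, by ring⟩
    (by rw [hGF 0]; exact hF0') (by rw [hGF 1]; exact hF1)
  have hgt : ∀ c' i' j' : ℕ, c' ≤ 1 → 2 * i + 6 * j + 4 * c < 2 * i' + 6 * j' + 4 * c' →
      ev5 (5 ^ r) G c' i' j' = 0 := by
    intro c' i' j' hc' h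
    rcases Nat.le_one_iff_eq_zero_or_eq_one.1 hc' with rfl | rfl
    · exact (hI i' j').1 (by omega)
    · exact (hI i' j').2.2.1 (by omega)
  have hval : ∀ c' i' j' : ℕ, c' ≤ 1 → 2 * i' + 6 * j' + 4 * c' = 2 * i + 6 * j + 4 * c →
      ev5 (5 ^ r) G c' i' j' =
        ((Mo ^ c' * Qo ^ i' * Lo ^ j' : Module.End (ZMod 5) (Fn5 (5 ^ r) (5 ^ s)))
          (bb5 (i + 5 * j + 3 * c) (i + j + c))) 0 0 := by
    intro c' i' j' hc' h
    have h1 := low_all_Tri (r := r) (s := s) hl c' i' j'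
    have h2 : ((c' : ℤ) * 4 + (i' : ℤ) * 2 + (j' : ℤ) * 6) =
        ((2 * i + 6 * j + 4 * c : ℕ) : ℤ) := by
      rw [← h]
      push_cast
      ring
    rw [h2] at h1
    have h3 := lead_Tri hl _ _ h1 _ _ hF0
    rw [← h3]
    rcases Nat.le_one_iff_eq_zero_or_eq_one.1 hc' with rfl | rfl
    · rw [(hI i' j').2.1 (by omega), hGF 0, pow_zero, one_mul]
    · rw [(hI i' j').2.2.2 (by omega), hGF 0, pow_one]
  refine ⟨G, hG, ?_, ?_⟩
  · rw [hval c i j hc rfl]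
    exact val_Tri hl hb c i j hr hs
  · intro c' i' j' hc' hne
    rcases lt_trichotomy (2 * i' + 6 * j' + 4 * c') (2 * i + 6 * j + 4 * c) with h | h | h
    · exact Or.inl h
    · right
      refine ⟨h, ?_⟩
      by_contra hcon
      apply hne
      rw [hval c' i' j' hc' h, kill_Tri hl hb _ _ _ _ _ hr hs (by omega)]
      rfl
    · exact absurd (hgt c' i' j' hc' h) hne

end Pool.Agent.Helper33.W5
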